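import Pool.Agent.Lib.MP_a150d7_gt.Mg.G001

namespace Pool.Agent.Results.MP_a150d7_gt.SolvableChain

open Pool.Agent.Lib.MP_a150d7_gt

/-- Let `𝔤` be a finite-dimensional real Lie algebra with a Hermitian structure, such that no
nonzero stationary term `C` of the `J`-derived chain `C₀ = 𝔤`, `C_{k+1} = C_k' + J C_k'` satisfies
`C = (C' ∩ J C') + C'' + J C''`. If the Chern holomorphic sectional curvature is a constant `c`, and
`c ≥ 0` or `𝔤` is solvable and unimodular, then `c = 0` and the Chern curvature vanishes. -/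
theorem result {𝔤 : Type} [LieRing 𝔤] [LieAlgebra ℝ 𝔤] [FiniteDimensional ℝ 𝔤] [Nontrivial 𝔤]
    (g : 𝔤 →ₗ[ℝ] 𝔤 →ₗ[ℝ] ℝ) (J : 𝔤 →ₗ[ℝ] 𝔤) (hgJ : IsHermitianStructure g J)
    (hNS : ∀ k, jChain J (k + 1) = jChain J k → jChain J k ≠ ⊥ →
      siegelPart J (jChain J k) ≠ jChain J k)
    (D : 𝔤 →ₗ[ℝ] 𝔤 →ₗ[ℝ] 𝔤) (hD : IsChernConnection g J D)
    (c : ℝ) (hsign : 0 ≤ c ∨ (LieAlgebra.IsSolvable 𝔤 ∧
      ∀ x : 𝔤, LinearMap.trace ℝ 𝔤 (LieAlgebra.ad ℝ 𝔤 x) = 0))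
    (hc : ∀ x, x ≠ 0 → holSec g J D x = c) :
    c = 0 ∧ ∀ x y z, curv D x y z = 0 :=
  s_main_lie g J hgJ hNS D hD c hsign hc

end Pool.Agent.Results.MP_a150d7_gt.SolvableChain
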